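import Pool.Agent.Helper35_WH.Stmt2

/-!
# Module COUNT: there are few special edges
-/

namespace Pool.Agent.Helper35_WH

open FreeGroup

namespace CountMod

theorem card_squares {n : ℕ} {X Y : List (Lt n)} (m : Model n X Y) (h2 : ForestCardStatement)
    (h3 : ModelForestStatement) : Fintype.card m.C.S ≤ Fintype.card m.C.A := by
  classical
  refine h2 m.C.A m.C.S m.C.bot m.C.top fun q₀ => ?_
  obtain ⟨c, hc⟩ := h3 n X Y m (m.C.lef q₀)
  refine ⟨fun e => decide (m.C.l₁ e = m.C.l₁ (m.C.bot q₀)) && c (m.C.s₁ e), fun q => ?_⟩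
  by_cases hl : m.C.l₁ (m.C.bot q) = m.C.l₁ (m.C.bot q₀)
  · have hl' : m.C.l₁ (m.C.top q) = m.C.l₁ (m.C.bot q₀) := by rw [← m.C.h5]; exact hl
    simp only [hl, hl', decide_true, Bool.true_and]
    rw [m.C.h1, m.C.h3, hc]
    constructor
    · intro h
      have hb : m.C.bot q = m.C.bot q₀ := m.inj₁ _ _ hl (by rw [m.C.h1, m.C.h1, h])
      exact m.injS _ _ hb h
    · rintro rfl; rfl
  · have hl' : m.C.l₁ (m.C.top q) ≠ m.C.l₁ (m.C.bot q₀) := by rw [← m.C.h5]; exact hl
    simp only [hl, hl', decide_false, Bool.false_and, ne_eq, not_true_eq_false, false_iff]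
    rintro rfl
    exact hl rfl

end CountMod

open Classical in
theorem count (h2 : ForestCardStatement) (h3 : ModelForestStatement) : CountStatement := by
  intro n X Y m hm
  have hS := CountMod.card_squares m h2 h3
  set deg : m.C.A → ℕ := fun e => Fintype.card {x : m.C.S × Bool // m.C.hside x = e} with hdeg
  have hlen : m.hp.length = X.length := by
    have := congrArg List.length m.hp_read
    simpa [readW] using this
  set P : Finset m.C.A := Finset.univ.filter (fun e => ∃ b, (e, b) ∈ m.hp) with hP
  have hPc : P.card ≤ X.length := by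
    have h1 : P ⊆ (m.hp.map Prod.fst).toFinset := by
      intro e he
      obtain ⟨b, hb⟩ := (Finset.mem_filter.1 he).2
      rw [List.mem_toFinset, List.mem_map]
      exact ⟨(e, b), hb, rfl⟩
    have h4 := Finset.card_le_card h1
    have h5 := List.toFinset_card_le (m.hp.map Prod.fst)
    rw [List.length_map, hlen] at h5
    omega
  have hPn : ∀ e, e ∉ P → 2 ≤ deg e := by
    intro e he
    refine hm.f₁ e fun b hb => he ?_
    rw [hP, Finset.mem_filter]
    exact ⟨Finset.mem_univ _, b, hb⟩
  -- the sum of the degrees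
  have hdegf : ∀ e, deg e = (Finset.univ.filter (fun x : m.C.S × Bool => m.C.hside x = e)).card := by
    intro e
    rw [hdeg]
    simp only [Fintype.card_subtype]
  have hsum : ∑ e, deg e = 2 * Fintype.card m.C.S := by
    have h1 := Finset.card_eq_sum_card_fiberwise (f := m.C.hside)
      (s := (Finset.univ : Finset (m.C.S × Bool))) (t := Finset.univ) (by intro x _; simp)
    rw [Finset.card_univ, Fintype.card_prod, Fintype.card_bool] at h1
    rw [mul_comm, h1]
    exact Finset.sum_congr rfl fun e _ => hdegf e
  set U : ℕ := ∑ e, (deg e - 2) with hU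
  set D : ℕ := ∑ e, (2 - deg e) with hD
  have hUD : U ≤ D := by
    have h1 : ∑ e, (deg e + (2 - deg e)) = ∑ e, (2 + (deg e - 2)) :=
      Finset.sum_congr rfl fun e _ => by omega
    rw [Finset.sum_add_distrib, Finset.sum_add_distrib, hsum, Finset.sum_const, Finset.card_univ,
      smul_eq_mul] at h1
    omega
  have hDP : D ≤ 2 * P.card := by
    have h1 : D ≤ ∑ e, (if e ∈ P then 2 else 0) := by
      refine Finset.sum_le_sum fun e _ => ?_
      split_ifs with h
      · omega
      · have := hPn e h
        omega
    rw [Finset.sum_ite_mem, Finset.univ_inter, Finset.sum_const, smul_eq_mul] at h1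
    omega
  set Q : Finset m.C.A := Finset.univ.filter (fun e => m.Sp₁ e) with hQ
  have hQc : Q.card ≤ P.card + U := by
    have h1 : Q.card = ∑ e, (if e ∈ Q then 1 else 0) := by simp
    have h4 : P.card = ∑ e, (if e ∈ P then 1 else 0) := by simp
    rw [h1, h4, hU, ← Finset.sum_add_distrib]
    refine Finset.sum_le_sum fun e _ => ?_
    by_cases hP' : e ∈ P
    · rw [if_pos hP']
      split_ifs <;> omega
    · rw [if_neg hP']
      split_ifs with hQ'
      · have h5 := hPn e hP'
        have h6 : m.Sp₁ e := (Finset.mem_filter.1 hQ').2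
        rcases h6 with h6 | h6
        · exact absurd (by rw [hP, Finset.mem_filter]; exact ⟨Finset.mem_univ _, h6⟩) hP'
        · have : deg e ≠ 2 := h6
          omega
      · omega
  constructor
  · rw [Nat.card_eq_fintype_card, Fintype.card_subtype]
    have : (Finset.univ.filter (fun e => m.Sp₁ e)).card = Q.card := rfl
    rw [this]
    omega
  · rw [Nat.card_eq_fintype_card, Fintype.card_subtype]
    have h1 := Finset.card_eq_sum_card_fiberwise (f := m.C.hside)
      (s := (Finset.univ.filter (fun x : m.C.S × Bool => m.Sp₁ (m.C.hside x)))) (t := Q)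
      (by
        intro x hx
        have := (Finset.mem_filter.1 (Finset.mem_coe.1 hx)).2
        rw [Finset.mem_coe, hQ, Finset.mem_filter]
        exact ⟨Finset.mem_univ _, this⟩)
    rw [h1]
    have h4 : ∑ e ∈ Q, ((Finset.univ.filter (fun x : m.C.S × Bool =>
        m.Sp₁ (m.C.hside x))).filter (fun x => m.C.hside x = e)).card ≤
        ∑ e ∈ Q, (2 + (deg e - 2)) := by
      refine Finset.sum_le_sum fun e _ => ?_
      have h5 : ((Finset.univ.filter (fun x : m.C.S × Bool =>
        m.Sp₁ (m.C.hside x))).filter (fun x => m.C.hside x = e)).card ≤ deg e := by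
        rw [hdegf]
        refine Finset.card_le_card fun x hx => ?_
        rw [Finset.mem_filter] at hx ⊢
        exact ⟨Finset.mem_univ _, hx.2⟩
      omega
    have h5 : ∑ e ∈ Q, (deg e - 2) ≤ U :=
      Finset.sum_le_sum_of_subset (Finset.subset_univ _)
    rw [Finset.sum_add_distrib, Finset.sum_const, smul_eq_mul] at h4
    omega

end Pool.Agent.Helper35_WH
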