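import Pool.Agent.Helper35_WH.Stmt2

/-!
# Module MFOREST: the vertical graph of a model is a forest
-/

namespace Pool.Agent.Helper35_WH

open FreeGroup

theorem mforest_word {n : ℕ} (h : FG n) (y y' : Fin n) :
    ((((of y')⁻¹ * h).toWord.getLast? = some (y, false)) ↔
      ¬ (h.toWord.getLast? = some (y, false))) ↔ (h = 1 ∧ y' = y) := by
  have e : ((of y')⁻¹ * h).toWord = reduce ((y', false) :: h.toWord) := by
    rw [toWord_mul, toWord_inv, toWord_of]
    rfl
  rw [e, reduce.cons, reduce_toWord]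
  cases hL : h.toWord with
  | nil =>
    have h1 : h = 1 := by rwa [toWord_eq_nil_iff] at hL
    simp [h1]
  | cons hd tl =>
    have h1 : h ≠ 1 := by
      intro h2
      rw [h2, toWord_one] at hL
      cases hL
    simp only [h1, false_and, iff_false]
    split_ifs with h2
    · cases tl with
      | nil =>
        have h3 : hd ≠ (y, false) := by
          rintro rfl
          simp at h2
        simp [h3]
      | cons a tl =>
        simp only [List.getLast?_cons_cons]
        tauto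
    · simp only [List.getLast?_cons_cons]
      tauto

theorem modelForest : ModelForestStatement := by
  intro n X Y m e₀
  classical
  refine ⟨fun v => decide ((m.eY.symm ((m.pos v)⁻¹ * m.pos (m.C.s₂ e₀))).toWord.getLast? =
    some (m.C.l₂ e₀, false)), fun e => ?_⟩
  have h1 : m.eY.symm ((m.pos (m.C.t₂ e))⁻¹ * m.pos (m.C.s₂ e₀)) =
      (of (m.C.l₂ e))⁻¹ * m.eY.symm ((m.pos (m.C.s₂ e))⁻¹ * m.pos (m.C.s₂ e₀)) := by
    rw [m.pos₂ e, MulEquiv.symm_apply_eq]
    simp [mul_assoc]
  have h2 := mforest_word (m.eY.symm ((m.pos (m.C.s₂ e))⁻¹ * m.pos (m.C.s₂ e₀))) (m.C.l₂ e₀)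
    (m.C.l₂ e)
  rw [← h1] at h2
  have h3 : (m.eY.symm ((m.pos (m.C.s₂ e))⁻¹ * m.pos (m.C.s₂ e₀)) = 1 ∧ m.C.l₂ e = m.C.l₂ e₀) ↔
      e = e₀ := by
    constructor
    · rintro ⟨h4, h5⟩
      rw [MulEquiv.symm_apply_eq, _root_.map_one, inv_mul_eq_one] at h4
      exact m.inj₂ e e₀ h5 (m.pos_inj h4)
    · rintro rfl
      simp
  rw [← h3, ← h2]
  simp only [ne_eq, decide_eq_decide]
  tauto

end Pool.Agent.Helper35_WH
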