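import Pool.Agent.Helper88_WH.SPLIT

/-!
# Module REDUCE: words which are not tight can be shortened
-/

namespace Pool.Agent.Helper35_WH

open FreeGroup

namespace ReduceMod

open SplitMod

variable {n : ℕ}

theorem norm_map_mk_le (τ : FG n →* FG n) (K : ℕ) (h : ∀ i, (τ (of i)).norm ≤ K)
    (L : List (Lt n)) : (τ (mk L)).norm ≤ K * L.length := by
  induction L with
  | nil =>
    have : (mk [] : FG n) = 1 := rfl
    rw [this]; simp
  | cons g L ih =>
    rw [mk_cons, _root_.map_mul]
    have h1 := FreeGroup.norm_mul_le (τ (el g)) (τ (mk L))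
    have h2 : (τ (el g)).norm ≤ K := by
      obtain ⟨i, b⟩ := g
      cases b with
      | true => rw [el_true]; exact h i
      | false => rw [el_false, _root_.map_inv, norm_inv_eq]; exact h i
    simp only [List.length_cons, mul_add, mul_one]
    omega

theorem norm_map_le (τ : FG n →* FG n) (K : ℕ) (h : ∀ i, (τ (of i)).norm ≤ K) (x : FG n) :
    (τ x).norm ≤ K * x.norm := by
  have := norm_map_mk_le τ K h x.toWord
  rwa [FreeGroup.mk_toWord] at this

/-- conjugation followed by ... -/
theorem small_conj (τ : FG n ≃* FG n) (h : Small n 3 τ) (c : FG n) (hc : c.norm ≤ 1) :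
    Small n 9 (τ.trans (MulAut.conj c)) := by
  intro i
  obtain ⟨h1, h2⟩ := h i
  constructor
  · show (c * τ (of i) * c⁻¹).norm ≤ 9
    have h3 := FreeGroup.norm_mul_le (c * τ (of i)) c⁻¹
    have h4 := FreeGroup.norm_mul_le c (τ (of i))
    rw [norm_inv_eq] at h3
    omega
  · have e : (τ.trans (MulAut.conj c)).symm (of i) = τ.symm (c⁻¹ * of i * c) := by
      rw [MulEquiv.symm_apply_eq]
      simp [MulEquiv.trans_apply]
      group
    rw [e]
    have h3 := norm_map_le (τ.symm : FG n →* FG n) 3 (fun i => (h i).2) (c⁻¹ * of i * c)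
    have h4 := FreeGroup.norm_mul_le (c⁻¹ * of i) c
    have h5 := FreeGroup.norm_mul_le c⁻¹ (of i)
    rw [norm_inv_eq] at h5
    have h6 : (of i : FG n).norm = 1 := by simp
    have h7 : (c⁻¹ * of i * c).norm ≤ 3 := by omega
    have h8 : (τ.symm (c⁻¹ * of i * c)).norm ≤ 3 * (c⁻¹ * of i * c).norm := h3
    omega

/-- conjugation first -/
theorem small_conj' (τ : FG n ≃* FG n) (h : Small n 3 τ) (c : FG n) (hc : c.norm ≤ 1) :
    Small n 9 ((MulAut.conj c).trans τ) := by
  intro i
  obtain ⟨h1, h2⟩ := h i
  constructor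
  · show (τ (c * of i * c⁻¹)).norm ≤ 9
    have h3 := norm_map_le (τ : FG n →* FG n) 3 (fun i => (h i).1) (c * of i * c⁻¹)
    have h4 := FreeGroup.norm_mul_le (c * of i) c⁻¹
    have h5 := FreeGroup.norm_mul_le c (of i)
    rw [norm_inv_eq] at h4
    have h6 : (of i : FG n).norm = 1 := by simp
    have h8 : (τ (c * of i * c⁻¹)).norm ≤ 3 * (c * of i * c⁻¹).norm := h3
    omega
  · have e : ((MulAut.conj c).trans τ).symm (of i) = c⁻¹ * τ.symm (of i) * c := by
      rw [MulEquiv.symm_apply_eq]
      simp [MulEquiv.trans_apply]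
      group
    rw [e]
    have h3 := FreeGroup.norm_mul_le (c⁻¹ * τ.symm (of i)) c
    have h4 := FreeGroup.norm_mul_le c⁻¹ (τ.symm (of i))
    rw [norm_inv_eq] at h4
    omega

/-- each letter leads from `s g` to `s (inv g)` -/
def Walk (s : Lt n → Bool) : Bool → List (Lt n) → Bool → Prop
  | a, [], b => a = b
  | a, g :: L, b => a = s g ∧ Walk s (s (inv g)) L b

theorem walk_of_SW (z : Lt n) (s : Lt n → Bool) (a : Bool) (L : List (Lt n)) (b : Bool) (k : ℕ)
    (h : SW z s a L b k) (hk : k = 0) :
    Walk (fun g => if g = z then s (inv z) else s g) a L b := by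
  induction h with
  | nil a => rfl
  | cons g L a a' b k h1 h2 h3 ih =>
    have hk0 : k = 0 := by omega
    have ht : trav z s a g a' = 0 := by omega
    have ht' : ¬ ((g = z ∧ a ≠ s (inv z)) ∨ (g = inv z ∧ a' ≠ s (inv z))) := by
      intro h
      unfold trav at ht
      rw [if_pos h] at ht
      exact one_ne_zero ht
    push Not at ht'
    have e1 : a = (fun g => if g = z then s (inv z) else s g) g := by
      simp only
      split_ifs with h
      · exact ht'.1 h
      · exact h1 h
    have e2 : a' = (fun g => if g = z then s (inv z) else s g) (inv g) := by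
      simp only
      split_ifs with h
      · exact ht'.2 (by rw [← h, inv_inv])
      · exact h2 h
    refine ⟨e1, ?_⟩
    rw [← e2]
    exact ih hk0

/-- a walk along letters which are loops stays where it is -/
theorem walk_const (s : Lt n → Bool) (L : List (Lt n)) : ∀ (a b : Bool), Walk s a L b →
    (∀ g ∈ L, s g = s (inv g)) → ∀ g ∈ L, s g = a ∧ s (inv g) = a := by
  induction L with
  | nil => intro a b _ _ g hg; simp at hg
  | cons g L ih =>
    intro a b h hL g' hg'
    obtain ⟨h1, h2⟩ := h
    have h3 := hL g (by simp)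
    rcases List.mem_cons.1 hg' with rfl | hg''
    · exact ⟨h1.symm, by rw [← h3, h1]⟩
    · have := ih _ _ h2 (fun x hx => hL x (by simp [hx])) g' hg''
      rw [← h3, ← h1] at this
      exact this

theorem norm_walk (y : Lt n) (s : Lt n → Bool) (hy : s y ≠ s (inv y)) (L : List (Lt n)) :
    ∀ (a b : Bool), Walk s a L b →
    (tau (inv y) s (cc (inv y) s a * mk L * (cc (inv y) s b)⁻¹)).norm ≤
      (L.filter (fun g => g.1 ≠ y.1)).length := by
  induction L with
  | nil =>
    intro a b h
    have h' : a = b := h
    have e : (mk [] : FG n) = 1 := rfl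
    rw [h', e]
    simp
  | cons g L ih =>
    intro a b h
    obtain ⟨h1, h2⟩ := h
    have h3 := ih _ _ h2
    have hcc : ∀ c, tau (inv y) s (cc (inv y) s c) = cc (inv y) s c := fun c =>
      lift_cc (inv y) s _ (by simp [im]) c
    have e : tau (inv y) s (cc (inv y) s a * mk (g :: L) * (cc (inv y) s b)⁻¹) =
        tau (inv y) s (cc (inv y) s (s g) * el g * (cc (inv y) s (s (inv g)))⁻¹) *
        tau (inv y) s (cc (inv y) s (s (inv g)) * mk L * (cc (inv y) s b)⁻¹) := by
      rw [mk_cons, ← _root_.map_mul, h1]
      congr 1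
      group
    rw [e]
    have h4 := FreeGroup.norm_mul_le
      (tau (inv y) s (cc (inv y) s (s g) * el g * (cc (inv y) s (s (inv g)))⁻¹))
      (tau (inv y) s (cc (inv y) s (s (inv g)) * mk L * (cc (inv y) s b)⁻¹))
    by_cases hg : g.1 = y.1
    · have h5 : tau (inv y) s (cc (inv y) s (s g) * el g * (cc (inv y) s (s (inv g)))⁻¹) = 1 := by
        have hgy : g = y ∨ g = inv y := by
          obtain ⟨i, b⟩ := g
          obtain ⟨j, b'⟩ := y
          simp only at hg
          subst hg
          cases b <;> cases b' <;> simp [inv]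
        have c1 : cc (inv y) s (s y) = 1 := by simp [cc]
        have c2 : cc (inv y) s (s (inv y)) = el y := by
          rw [cc, inv_inv, if_neg (fun h => hy h.symm)]
        rcases hgy with rfl | rfl
        · rw [c1, c2]; simp
        · rw [inv_inv, c1, c2, el_inv]; simp
      rw [h5, one_mul]
      have h6 : ((g :: L).filter (fun g => g.1 ≠ y.1)) = L.filter (fun g => g.1 ≠ y.1) := by
        rw [List.filter_cons_of_neg]
        simpa using hg
      rw [h6]
      exact h3
    · have h5 : tau (inv y) s (cc (inv y) s (s g) * el g * (cc (inv y) s (s (inv g)))⁻¹) = el g := by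
        rw [_root_.map_mul, _root_.map_mul, _root_.map_inv, hcc, hcc, tau_el (inv y) s g hg]
        group
      rw [h5] at h4 ⊢
      have h6 : ((g :: L).filter (fun g => g.1 ≠ y.1)) = g :: L.filter (fun g => g.1 ≠ y.1) := by
        rw [List.filter_cons_of_pos]
        simpa using hg
      rw [h6, List.length_cons]
      have := norm_el_le g
      omega

theorem main (L : List (Lt n)) (hA : AllLetters L) (hT : ¬ Tight L) :
    ∃ τ : FG n ≃* FG n, Small n 9 τ ∧ (τ (mk L)).norm < L.length := by
  unfold Tight at hT
  push Not at hT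
  obtain ⟨z, s, a, k, ⟨g, g', hg, hg', hne⟩, hSW⟩ := hT
  by_cases hk : k = 0
  · set s' : Lt n → Bool := fun g => if g = z then s (inv z) else s g with hs'
    have hW := walk_of_SW z s a L a k hSW hk
    rw [← hs'] at hW
    have hex : ∃ y ∈ L, s' y ≠ s' (inv y) := by
      by_contra hcon
      push Not at hcon
      have hc := walk_const s' L a a hW hcon
      have key : ∀ g, g ≠ z → s g = a := by
        intro g hg
        obtain ⟨b, hb⟩ := hA g.1
        obtain ⟨e1, e2⟩ := hc _ hb
        have : g = (g.1, b) ∨ g = inv (g.1, b) := by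
          obtain ⟨i, b'⟩ := g
          cases b <;> cases b' <;> simp [inv]
        have hsg : s' g = s g := by simp [hs', hg]
        rw [← hsg]
        rcases this with h | h
        · rw [h]; exact e1
        · rw [h]; exact e2
      exact hne (by rw [key g hg, key g' hg'])
    obtain ⟨y, hyL, hy⟩ := hex
    refine ⟨(MulAut.conj (cc (inv y) s' a)).trans (tau (inv y) s'),
      small_conj' _ (small_tau _ _) _ (norm_cc_le _ _ _), ?_⟩
    have h1 := norm_walk y s' hy L a a hW
    have h2 : (L.filter (fun g => g.1 ≠ y.1)).length < L.length := by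
      rw [List.length_filter_lt_length_iff_exists]
      exact ⟨y, hyL, by simp⟩
    have e : ((MulAut.conj (cc (inv y) s' a)).trans (tau (inv y) s')) (mk L) =
        tau (inv y) s' (cc (inv y) s' a * mk L * (cc (inv y) s' a)⁻¹) := rfl
    rw [e]
    omega
  · refine ⟨(tau z s).trans (MulAut.conj (cc z s a)),
      small_conj _ (small_tau _ _) _ (norm_cc_le _ _ _), ?_⟩
    have h1 := SplitMod.main z s a L a k hSW
    have e : ((tau z s).trans (MulAut.conj (cc z s a))) (mk L) =
        cc z s a * tau z s (mk L) * (cc z s a)⁻¹ := rfl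
    rw [e]
    omega

end ReduceMod

theorem reduce (_ : SplitShortStatement) : ReduceStatement := fun _ L hA hT =>
  ReduceMod.main L hA hT

end Pool.Agent.Helper35_WH
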