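import Pool.Agent.Helper35_WH.Stmt2

/-!
# Module RIMDATA: the rim and the chord systems of a surface exist
-/

namespace Pool.Agent.Helper35_WH

namespace RimMod

variable {K : Type} [Fintype K] [DecidableEq K] (f g : K → K)

/-- one step of the alternating walk -/
def tf (z : K × Bool) : K × Bool := (if z.2 then g z.1 else f z.1, !z.2)

/-- the flip as a permutation -/
def io : Equiv.Perm (K × Bool) where
  toFun z := (z.1, !z.2)
  invFun z := (z.1, !z.2)
  left_inv z := by simp
  right_inv z := by simp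

/-- the alternating walk as a permutation -/
def th (hf : ∀ x, f (f x) = x) (hg : ∀ x, g (g x) = x) : Equiv.Perm (K × Bool) where
  toFun := tf f g
  invFun z := io (tf f g (io z))
  left_inv z := by
    obtain ⟨x, b⟩ := z
    cases b <;> simp [tf, io, hf, hg]
  right_inv z := by
    obtain ⟨x, b⟩ := z
    cases b <;> simp [tf, io, hf, hg]

omit [Fintype K] [DecidableEq K] in
theorem io_mul (hf : ∀ x, f (f x) = x) (hg : ∀ x, g (g x) = x) :
    io * th f g hf hg * io⁻¹ = (th f g hf hg)⁻¹ := by
  ext z <;> rfl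

omit [Fintype K] [DecidableEq K] in
theorem io_zpow (hf : ∀ x, f (f x) = x) (hg : ∀ x, g (g x) = x) (j : ℤ) (z : K × Bool) :
    io (((th f g hf hg) ^ j) z) = ((th f g hf hg) ^ (-j)) (io z) := by
  have h1 := conj_zpow (i := j) (a := (io : Equiv.Perm (K × Bool))) (b := th f g hf hg)
  rw [io_mul, inv_zpow] at h1
  have h2 : (io * (th f g hf hg) ^ j : Equiv.Perm (K × Bool)) =
      ((th f g hf hg) ^ j)⁻¹ * io := by
    rw [h1]; group
  have h3 := DFunLike.congr_fun h2 z
  rw [zpow_neg]
  exact h3

omit [Fintype K] [DecidableEq K] in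
theorem io_ne (z : K × Bool) : io z ≠ z := by
  intro h
  have := congrArg Prod.snd h
  simp [io] at this

omit [Fintype K] [DecidableEq K] in
theorem flag_iff (hf : ∀ x, f (f x) = x) (hg : ∀ x, g (g x) = x) (z : K × Bool) :
    th f g hf hg z = io z ↔ (if z.2 then g z.1 else f z.1) = z.1 := by
  show (if z.2 then g z.1 else f z.1, !z.2) = (z.1, !z.2) ↔ _
  rw [Prod.mk.injEq]
  simp

omit [Fintype K] [DecidableEq K] in
theorem io_flag (hf : ∀ x, f (f x) = x) (hg : ∀ x, g (g x) = x) (z : K × Bool)
    (hz : th f g hf hg z = io z) (j : ℤ) :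
    io (((th f g hf hg) ^ j) z) = ((th f g hf hg) ^ (1 - j)) z := by
  rw [io_zpow, ← hz, ← Equiv.Perm.mul_apply, ← zpow_add_one]
  congr 2
  ring

omit [Fintype K] [DecidableEq K] in
theorem orb_refl (x : K) : Orb f g x x := fun _ _ _ h => h

omit [Fintype K] [DecidableEq K] in
theorem orb_tf (x : K) (z : K × Bool) (h : Orb f g x z.1) : Orb f g x (tf f g z).1 := by
  intro P h1 h2 h3
  have h4 := h P h1 h2 h3
  obtain ⟨y, b⟩ := z
  cases b with
  | false => exact h1 _ h4
  | true => exact h2 _ h4

omit [Fintype K] [DecidableEq K] in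
theorem orb_pow (hf : ∀ x, f (f x) = x) (hg : ∀ x, g (g x) = x) (z : K × Bool) (j : ℕ) :
    Orb f g z.1 (((th f g hf hg) ^ j) z).1 := by
  induction j with
  | zero => exact orb_refl f g _
  | succ j ih =>
    rw [pow_succ']
    exact orb_tf f g _ _ ih

omit [Fintype K] [DecidableEq K] in
theorem mem_of_orb (hf : ∀ x, f (f x) = x) (hg : ∀ x, g (g x) = x) (z w : K × Bool)
    (hz : th f g hf hg z = io z) (h : Orb f g z.1 w.1) :
    ∃ i : ℤ, w = ((th f g hf hg) ^ i) z := by
  have key : ∀ b, ∃ i : ℤ, (w.1, b) = ((th f g hf hg) ^ i) z := by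
    refine h (fun x => ∀ b, ∃ i : ℤ, (x, b) = ((th f g hf hg) ^ i) z) ?_ ?_ ?_
    · intro x hx
      obtain ⟨i, hi⟩ := hx false
      have h1 : (f x, true) = ((th f g hf hg) ^ (i + 1)) z := by
        rw [add_comm, zpow_add, zpow_one, Equiv.Perm.mul_apply, ← hi]
        rfl
      intro b
      cases b with
      | true => exact ⟨i + 1, h1⟩
      | false =>
        refine ⟨1 - (i + 1), ?_⟩
        rw [← io_flag f g hf hg z hz, ← h1]
        rfl
    · intro x hx
      obtain ⟨i, hi⟩ := hx true
      have h1 : (g x, false) = ((th f g hf hg) ^ (i + 1)) z := by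
        rw [add_comm, zpow_add, zpow_one, Equiv.Perm.mul_apply, ← hi]
        rfl
      intro b
      cases b with
      | false => exact ⟨i + 1, h1⟩
      | true =>
        refine ⟨1 - (i + 1), ?_⟩
        rw [← io_flag f g hf hg z hz, ← h1]
        rfl
    · intro b
      by_cases hb : b = z.2
      · exact ⟨0, by rw [hb]; rfl⟩
      · refine ⟨1, ?_⟩
        rw [zpow_one, hz]
        have : b = !z.2 := by
          cases b <;> cases h : z.2 <;> simp_all
        rw [this]
        rfl
  obtain ⟨i, hi⟩ := key w.2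
  exact ⟨i, hi⟩

/-- flags -/
abbrev Fl := {z : K × Bool // (if z.2 then g z.1 else f z.1) = z.1}

theorem mate_exists (hf : ∀ x, f (f x) = x) (hg : ∀ x, g (g x) = x) :
    ∃ M : Fl f g → Fl f g, (∀ z, M (M z) = z) ∧ (∀ z, M z ≠ z) ∧
      (∀ z, Orb f g z.1.1 (M z).1.1) ∧
      ∀ z w, Orb f g z.1.1 w.1.1 → w = z ∨ w = M z := by
  set t := th f g hf hg with ht
  have hstep : ∀ z : Fl f g, ∃ w : Fl f g, w ≠ z ∧ Orb f g z.1.1 w.1.1 ∧
      ∀ y : Fl f g, Orb f g z.1.1 y.1.1 → y = z ∨ y = w := by
    intro z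
    have hz : t z.1 = io z.1 := (flag_iff f g hf hg z.1).2 z.2
    set N := MulAction.period t z.1 with hN
    have hNpos : 0 < N := MulAction.period_pos_of_orderOf_pos (orderOf_pos t) _
    have hper : ∀ j : ℤ, (t ^ j) z.1 = z.1 ↔ (N : ℤ) ∣ j := by
      intro j
      have h := @MulAction.zpow_smul_eq_iff_period_dvd (K × Bool) (Equiv.Perm (K × Bool)) _ _ j t z.1
      exact h
    have hper2 : ∀ i j : ℤ, (t ^ i) z.1 = (t ^ j) z.1 ↔ (N : ℤ) ∣ i - j := by
      intro i j
      rw [← hper, zpow_sub, Equiv.Perm.mul_apply]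
      constructor
      · intro h
        have hc : (t ^ i) ((t ^ j)⁻¹ z.1) = (t ^ j)⁻¹ ((t ^ i) z.1) := by
          rw [← Equiv.Perm.mul_apply, ← Equiv.Perm.mul_apply]
          congr 1
          rw [← zpow_neg, ← zpow_add, ← zpow_add, add_comm]
        rw [hc, h]
        simp
      · intro h
        have hc : (t ^ i) ((t ^ j)⁻¹ z.1) = (t ^ j)⁻¹ ((t ^ i) z.1) := by
          rw [← Equiv.Perm.mul_apply, ← Equiv.Perm.mul_apply]
          congr 1
          rw [← zpow_neg, ← zpow_add, ← zpow_add, add_comm]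
        rw [hc] at h
        have h' := congrArg (t ^ j) h
        simpa using h'
    have heven : ∃ k : ℕ, N = 2 * k := by
      rcases Nat.even_or_odd' N with ⟨k, hk | hk⟩
      · exact ⟨k, hk⟩
      · exfalso
        have h1 := io_flag f g hf hg z.1 hz ((k : ℤ) + 1)
        have h2 : (t ^ (1 - ((k : ℤ) + 1))) z.1 = (t ^ ((k : ℤ) + 1)) z.1 := by
          rw [hper2]
          refine ⟨-1, ?_⟩
          rw [hk]; push_cast; ring
        exact io_ne _ (h1.trans h2)
    obtain ⟨k, hk⟩ := heven
    have hflag : ∀ i : ℤ, t ((t ^ i) z.1) = io ((t ^ i) z.1) ↔ (N : ℤ) ∣ 2 * i := by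
      intro i
      rw [io_flag f g hf hg z.1 hz i, ← ht]
      have h1 : t ((t ^ i) z.1) = (t ^ (1 + i)) z.1 := by
        rw [zpow_add, zpow_one, Equiv.Perm.mul_apply]
      rw [h1, hper2]
      have : (1 + i) - (1 - i) = 2 * i := by ring
      rw [this]
    have hwf : t ((t ^ (k : ℤ)) z.1) = io ((t ^ (k : ℤ)) z.1) := by
      rw [hflag, hk]
      exact ⟨1, by push_cast; ring⟩
    refine ⟨⟨(t ^ (k : ℤ)) z.1, (flag_iff f g hf hg _).1 hwf⟩, ?_, ?_, ?_⟩
    · intro h
      have h1 := congrArg Subtype.val h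
      simp only at h1
      rw [hper, hk] at h1
      obtain ⟨c, hc⟩ := h1
      push_cast at hc
      have hkpos : (0 : ℤ) < k := by omega
      have h2 : (k : ℤ) * (2 * c - 1) = 0 := by linarith
      rcases mul_eq_zero.1 h2 with h3 | h3
      · omega
      · omega
    · have := orb_pow f g hf hg z.1 k
      rw [← ht, ← zpow_natCast] at this
      exact this
    · intro y hy
      obtain ⟨i, hi⟩ := mem_of_orb f g hf hg z.1 y.1 hz hy
      rw [← ht] at hi
      have h1 := (flag_iff f g hf hg y.1).2 y.2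
      rw [← ht, hi, hflag, hk] at h1
      obtain ⟨c, hc⟩ := h1
      push_cast at hc
      have h2 : i = k * c := by linarith
      rcases Int.even_or_odd' c with ⟨d, hd | hd⟩
      · left
        apply Subtype.ext
        rw [hi, hper, hk, h2, hd]
        exact ⟨d, by push_cast; ring⟩
      · right
        apply Subtype.ext
        simp only
        rw [hi, hper2, hk, h2, hd]
        exact ⟨d, by push_cast; ring⟩
  choose M hM1 hM2 hM3 using hstep
  refine ⟨M, ?_, hM1, hM2, hM3⟩
  intro z
  have h1 : Orb f g z.1.1 (M (M z)).1.1 := fun P a b c => hM2 (M z) P a b (hM2 z P a b c)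
  rcases hM3 z _ h1 with h | h
  · exact h
  · exact absurd h (hM1 (M z))

/-- the version in which only `f` has fixed points -/
theorem mate1 (hf : ∀ x, f (f x) = x) (hg : ∀ x, g (g x) = x) (hg' : ∀ x, g x ≠ x) :
    ∃ A : {x : K // f x = x} → {x : K // f x = x}, (∀ x, A (A x) = x) ∧ (∀ x, A x ≠ x) ∧
      (∀ x, Orb f g x.1 (A x).1) ∧ ∀ x y : {x : K // f x = x}, Orb f g x.1 y.1 → y = x ∨ y = A x := by
  obtain ⟨M, h1, h2, h3, h4⟩ := mate_exists f g hf hg
  have hfl : ∀ z : Fl f g, z.1.2 = false := by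
    rintro ⟨⟨x, b⟩, hz⟩
    cases b with
    | false => rfl
    | true => exact absurd hz (hg' x)
  have hfx : ∀ z : Fl f g, f z.1.1 = z.1.1 := by
    intro z
    have h5 := z.2
    rw [hfl z] at h5
    exact h5
  have hz : ∀ z : Fl f g, z = ⟨(z.1.1, false), hfx z⟩ := by
    intro z
    apply Subtype.ext
    exact Prod.ext rfl (hfl z)
  refine ⟨fun x => ⟨(M ⟨(x.1, false), x.2⟩).1.1, hfx _⟩, ?_, ?_, ?_, ?_⟩
  · intro x
    apply Subtype.ext
    simp only
    rw [← hz, h1]
  · intro x hx
    have h5 := congrArg Subtype.val hx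
    simp only at h5
    apply h2 ⟨(x.1, false), x.2⟩
    rw [hz (M ⟨(x.1, false), x.2⟩)]
    apply Subtype.ext
    simp only [h5]
  · intro x
    exact h3 ⟨(x.1, false), x.2⟩
  · intro x y hxy
    rcases h4 ⟨(x.1, false), x.2⟩ ⟨(y.1, false), y.2⟩ hxy with h | h
    · left
      have h5 := congrArg (fun z => z.1.1) h
      exact Subtype.ext h5
    · right
      have h5 := congrArg (fun z => z.1.1) h
      exact Subtype.ext h5

end RimMod

open RimMod

theorem rimData : RimDataStatement := by
  intro Q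
  obtain ⟨M, hM1, hM2, hM3, hM4⟩ := mate_exists Q.nu Q.eta Q.nunu Q.etaeta
  have hfc : ∀ x, Q.fc x ≠ x := by
    intro x h
    have := Q.colC_fc x
    rw [h] at this
    cases hc : Q.colC x <;> simp [hc] at this
  have hfa : ∀ x, Q.fa x ≠ x := by
    intro x h
    have := Q.colA_fa x
    rw [h] at this
    cases hc : Q.colA x <;> simp [hc] at this
  obtain ⟨A, hA1, hA2, hA3, hA4⟩ := mate1 Q.nu Q.fc Q.nunu Q.fcfc hfc
  obtain ⟨B, hB1, hB2, hB3, hB4⟩ := mate1 Q.eta Q.fa Q.etaeta Q.fafa hfa
  -- the equivalence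
  let e : ({x : Q.K // Q.nu x = x} ⊕ {x : Q.K // Q.eta x = x}) ≃ {x : Q.K × Bool // Q.Bdry x} :=
    { toFun := Sum.elim (fun x => ⟨(x.1, false), x.2⟩) (fun x => ⟨(x.1, true), x.2⟩)
      invFun := fun x => if h : x.1.2 = true then
          Sum.inr ⟨x.1.1, by have := x.2; unfold Quad.Bdry at this; rw [h] at this; exact this⟩
        else Sum.inl ⟨x.1.1, by
          have := x.2
          unfold Quad.Bdry at this
          rw [Bool.not_eq_true] at h
          rw [h] at this
          exact this⟩
      left_inv := by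
        rintro (x | x)
        · simp
        · simp
      right_inv := by
        rintro ⟨⟨x, b⟩, hx⟩
        cases b <;> simp }
  let M' : {x : Q.K × Bool // Q.Bdry x} → {x : Q.K × Bool // Q.Bdry x} := M
  have hM1' : ∀ z, M' (M' z) = z := hM1
  have hM2' : ∀ z, M' z ≠ z := hM2
  have hM3' : ∀ z : {x : Q.K × Bool // Q.Bdry x}, Orb Q.nu Q.eta z.1.1 (M' z).1.1 := hM3
  have hM4' : ∀ z w : {x : Q.K × Bool // Q.Bdry x}, Orb Q.nu Q.eta z.1.1 w.1.1 →
      w = z ∨ w = M' z := hM4
  let pa : {x : Q.K // Q.nu x = x} → {x : Q.K // Q.nu x = x} := fun x =>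
    ⟨Q.fa x.1, by rw [Q.nufa, x.2]⟩
  let pc : {x : Q.K // Q.eta x = x} → {x : Q.K // Q.eta x = x} := fun x =>
    ⟨Q.fc x.1, by rw [Q.etafc, x.2]⟩
  have hpa : ∀ x, pa (pa x) = x := fun x => Subtype.ext (Q.fafa x.1)
  have hpc : ∀ x, pc (pc x) = x := fun x => Subtype.ext (Q.fcfc x.1)
  have hpa' : ∀ x, pa x ≠ x := fun x h => hfa x.1 (congrArg Subtype.val h)
  have hpc' : ∀ x, pc x ≠ x := fun x h => hfc x.1 (congrArg Subtype.val h)
  have hcommA : ∀ x, A (pa x) = pa (A x) := by
    intro x
    have h1 : Orb Q.nu Q.fc (pa x).1 (pa (A x)).1 := by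
      intro P h1 h2 h3
      exact hA3 x (fun y => P (Q.fa y)) (fun y hy => by rw [← Q.nufa]; exact h1 _ hy)
        (fun y hy => by rw [Q.fafc]; exact h2 _ hy) h3
    rcases hA4 _ _ h1 with h | h
    · exfalso
      apply hA2 x
      have := congrArg pa h
      rwa [hpa, hpa] at this
    · exact h.symm
  have hcommB : ∀ x, B (pc x) = pc (B x) := by
    intro x
    have h1 : Orb Q.eta Q.fa (pc x).1 (pc (B x)).1 := by
      intro P h1 h2 h3
      exact hB3 x (fun y => P (Q.fc y)) (fun y hy => by rw [← Q.etafc]; exact h1 _ hy)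
        (fun y hy => by rw [← Q.fafc]; exact h2 _ hy) h3
    rcases hB4 _ _ h1 with h | h
    · exfalso
      apply hB2 x
      have := congrArg pc h
      rwa [hpc, hpc] at this
    · exact h.symm
  let R : Rim :=
    { E := {x : Q.K // Q.nu x = x} ⊕ {x : Q.K // Q.eta x = x}
      σ := fun x => e.symm (M' (e x))
      φ := Sum.map pa pc
      σσ := fun x => by simp [hM1']
      φφ := by rintro (x | x) <;> simp [hpa, hpc]
      σ_ne := fun x h => hM2' (e x) (by rw [Equiv.symm_apply_eq] at h; exact h)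
      φ_ne := by
        rintro (x | x) h
        · exact hpa' x (Sum.inl_injective h)
        · exact hpc' x (Sum.inr_injective h) }
  let AV : Chords R :=
    { A := Sum.map A pc
      AA := by rintro (x | x) <;> simp [hA1, hpc]
      A_ne := by
        rintro (x | x) h
        · exact hA2 x (Sum.inl_injective h)
        · exact hpc' x (Sum.inr_injective h)
      comm := by
        rintro (x | x)
        · show Sum.inl (A (pa x)) = Sum.inl (pa (A x))
          rw [hcommA]
        · rfl }
  let AH : Chords R :=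
    { A := Sum.map pa B
      AA := by rintro (x | x) <;> simp [hB1, hpa]
      A_ne := by
        rintro (x | x) h
        · exact hpa' x (Sum.inl_injective h)
        · exact hB2 x (Sum.inr_injective h)
      comm := by
        rintro (x | x)
        · rfl
        · show Sum.inr (B (pc x)) = Sum.inr (pc (B x))
          rw [hcommB] }
  refine ⟨{ R := R, e := e, AV := AV, AH := AH, φ_false := ?_, φ_true := ?_, σ_orb := ?_,
            σ_uni := ?_, AV_false := ?_, AV_uni := ?_, AV_true := ?_, AH_true := ?_, AH_uni := ?_,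
            AH_false := ?_ }⟩
  · rintro (x | x) h
    · rfl
    · exact absurd h (by simp [e])
  · rintro (x | x) h
    · exact absurd h (by simp [e])
    · rfl
  · intro x
    have h1 := hM3' (e x)
    have h2 : e (R.σ x) = M' (e x) := by
      show e (e.symm (M' (e x))) = _
      simp
    rw [h2]
    exact h1
  · intro x y h
    rcases hM4' (e x) (e y) h with h1 | h1
    · left; exact e.injective h1
    · right
      show y = e.symm (M' (e x))
      rw [← h1]; simp
  · rintro (x | x) h
    · exact ⟨rfl, hA3 x⟩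
    · exact absurd h (by simp [e])
  · rintro (x | x) (y | y) hx hy h
    · rcases hA4 x y h with h1 | h1
      · left; rw [h1]
      · right; rw [h1]; rfl
    · exact absurd hy (by simp [e])
    · exact absurd hx (by simp [e])
    · exact absurd hy (by simp [e])
  · rintro (x | x) h
    · exact absurd h (by simp [e])
    · rfl
  · rintro (x | x) h
    · exact absurd h (by simp [e])
    · exact ⟨rfl, hB3 x⟩
  · rintro (x | x) (y | y) hx hy h
    · exact absurd hy (by simp [e])
    · exact absurd hx (by simp [e])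
    · exact absurd hy (by simp [e])
    · rcases hB4 x y h with h1 | h1
      · left; rw [h1]
      · right; rw [h1]; rfl
  · rintro (x | x) h
    · rfl
    · exact absurd h (by simp [e])

end Pool.Agent.Helper35_WH
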