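import Pool.Agent.Helper35_WH.Stmt2

/-!
# Module SPLIT: the Whitehead automorphism of a splitting
-/

namespace Pool.Agent.Helper35_WH

open FreeGroup

namespace SplitMod

variable {n : ℕ}

/-- the element of the free group given by a letter -/
def el (g : Lt n) : FG n := mk [g]

theorem el_true (i : Fin n) : el (i, true) = (of i : FG n) := rfl

theorem el_inv (g : Lt n) : el (inv g) = (el g)⁻¹ := by
  simp [el, inv, FreeGroup.inv_mk, FreeGroup.invRev]

theorem el_false (i : Fin n) : el (i, false) = (of i : FG n)⁻¹ := by
  have := el_inv (n := n) (i, true)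
  simpa [inv, el_true] using this

theorem norm_el_le (g : Lt n) : (el g).norm ≤ 1 := by
  simpa [el] using FreeGroup.norm_mk_le (L₁ := [g])

theorem mk_cons (g : Lt n) (L : List (Lt n)) : (mk (g :: L) : FG n) = el g * mk L := by
  simp [el, FreeGroup.mul_mk]

/-- the connecting elements -/
def cc (z : Lt n) (s : Lt n → Bool) (a : Bool) : FG n := if a = s (inv z) then 1 else el (inv z)

theorem norm_cc_le (z : Lt n) (s : Lt n → Bool) (a : Bool) : (cc z s a).norm ≤ 1 := by
  unfold cc
  split_ifs
  · simp
  · exact norm_el_le _

/-- images of the generators -/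
def im (z : Lt n) (s : Lt n → Bool) (i : Fin n) : FG n :=
  if i = z.1 then of i else (cc z s (s (i, true)))⁻¹ * of i * cc z s (s (i, false))

/-- images of the generators under the inverse -/
def im' (z : Lt n) (s : Lt n → Bool) (i : Fin n) : FG n :=
  if i = z.1 then of i else cc z s (s (i, true)) * of i * (cc z s (s (i, false)))⁻¹

theorem lift_el (z : Lt n) (f : Fin n → FG n) (hf : f z.1 = of z.1) :
    FreeGroup.lift f (el z) = el z := by
  obtain ⟨i, b⟩ := z
  cases b with
  | true => rw [el_true, lift_apply_of, hf]
  | false => rw [el_false, _root_.map_inv, lift_apply_of, hf]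

theorem lift_cc (z : Lt n) (s : Lt n → Bool) (f : Fin n → FG n) (hf : f z.1 = of z.1) (a : Bool) :
    FreeGroup.lift f (cc z s a) = cc z s a := by
  unfold cc
  split_ifs
  · simp
  · rw [el_inv, _root_.map_inv, lift_el z f hf]

/-- the automorphism -/
def tau (z : Lt n) (s : Lt n → Bool) : FG n ≃* FG n :=
  MonoidHom.toMulEquiv (FreeGroup.lift (im z s)) (FreeGroup.lift (im' z s))
    (by
      ext i
      have h0 : im' z s z.1 = of z.1 := by simp [im']
      simp only [MonoidHom.comp_apply, lift_apply_of, MonoidHom.id_apply]
      by_cases h : i = z.1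
      · simp only [im, if_pos h, lift_apply_of]; rw [h, h0]
      · simp only [im, if_neg h, _root_.map_mul, _root_.map_inv, lift_cc z s _ h0, lift_apply_of]
        simp only [im', if_neg h]
        group)
    (by
      ext i
      have h0 : im z s z.1 = of z.1 := by simp [im]
      simp only [MonoidHom.comp_apply, lift_apply_of, MonoidHom.id_apply]
      by_cases h : i = z.1
      · simp only [im', if_pos h, lift_apply_of]; rw [h, h0]
      · simp only [im', if_neg h, _root_.map_mul, _root_.map_inv, lift_cc z s _ h0, lift_apply_of]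
        simp only [im, if_neg h]
        group)

theorem tau_of (z : Lt n) (s : Lt n → Bool) (i : Fin n) : tau z s (of i) = im z s i := by
  simp [tau]

theorem tau_symm_of (z : Lt n) (s : Lt n → Bool) (i : Fin n) :
    (tau z s).symm (of i) = im' z s i := by
  simp [tau]

theorem norm3 (a b c : FG n) (ha : a.norm ≤ 1) (hb : b.norm ≤ 1) (hc : c.norm ≤ 1) :
    (a * b * c).norm ≤ 3 := by
  have h1 := FreeGroup.norm_mul_le (a * b) c
  have h2 := FreeGroup.norm_mul_le a b
  omega

theorem small_tau (z : Lt n) (s : Lt n → Bool) : Small n 3 (tau z s) := by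
  intro i
  rw [tau_of, tau_symm_of]
  have h1 : (of i : FG n).norm ≤ 1 := by simp
  constructor
  · unfold im
    split_ifs
    · omega
    · exact norm3 _ _ _ (by rw [norm_inv_eq]; exact norm_cc_le _ _ _) h1 (norm_cc_le _ _ _)
  · unfold im'
    split_ifs
    · omega
    · exact norm3 _ _ _ (norm_cc_le _ _ _) h1 (by rw [norm_inv_eq]; exact norm_cc_le _ _ _)

theorem tau_el (z : Lt n) (s : Lt n → Bool) (g : Lt n) (h : g.1 ≠ z.1) :
    tau z s (el g) = (cc z s (s g))⁻¹ * el g * cc z s (s (inv g)) := by
  obtain ⟨i, b⟩ := g
  cases b with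
  | true => rw [el_true, tau_of]; simp only [im, inv, Bool.not_true]; rw [if_neg h]
  | false =>
    rw [el_false, _root_.map_inv, tau_of]
    simp only [im, inv, Bool.not_false]; rw [if_neg h]
    group

theorem tau_z (z : Lt n) (s : Lt n → Bool) : tau z s (el z) = el z := by
  show FreeGroup.lift (im z s) (el z) = el z
  exact lift_el z _ (by simp [im])

theorem step (z : Lt n) (s : Lt n → Bool) (a : Bool) (g : Lt n) (a' : Bool)
    (h1 : g ≠ z → a = s g) (h2 : inv g ≠ z → a' = s (inv g)) :
    (cc z s a * tau z s (el g) * (cc z s a')⁻¹).norm + trav z s a g a' ≤ 1 := by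
  by_cases hg : g.1 = z.1
  · have hgz : g = z ∨ g = inv z := by
      obtain ⟨i, b⟩ := g
      obtain ⟨j, b'⟩ := z
      simp only at hg
      subst hg
      cases b <;> cases b' <;> simp [inv]
    rcases hgz with rfl | rfl
    · have ha' := h2 (inv_ne g)
      have hc' : cc g s a' = 1 := by simp [cc, ha']
      rw [hc', tau_z]
      by_cases ha : a = s (inv g)
      · have hc : cc g s a = 1 := by simp [cc, ha]
        have ht : trav g s a g a' = 0 := by
          unfold trav
          rw [if_neg]
          rintro (⟨-, h⟩ | ⟨h, -⟩)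
          · exact h ha
          · exact (inv_ne g) h.symm
        rw [hc, ht]
        simpa using norm_el_le g
      · have hc : cc g s a = el (inv g) := by simp [cc, ha]
        have ht : trav g s a g a' ≤ 1 := by
          unfold trav
          split_ifs <;> omega
        rw [hc, el_inv]
        simpa using ht
    · have ha := h1 (inv_ne z)
      have hc : cc z s a = 1 := by simp [cc, ha]
      rw [hc, el_inv, _root_.map_inv, tau_z]
      by_cases ha' : a' = s (inv z)
      · have hc' : cc z s a' = 1 := by simp [cc, ha']
        have ht : trav z s a (inv z) a' = 0 := by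
          unfold trav
          rw [if_neg]
          rintro (⟨h, -⟩ | ⟨-, h⟩)
          · exact (inv_ne z) h
          · exact h ha'
        rw [hc', ht]
        simpa using norm_el_le z
      · have hc' : cc z s a' = el (inv z) := by simp [cc, ha']
        have ht : trav z s a (inv z) a' ≤ 1 := by
          unfold trav
          split_ifs <;> omega
        rw [hc', el_inv]
        simpa using ht
  · have hgz : g ≠ z := fun h => hg (by rw [h])
    have hgz' : inv g ≠ z := fun h => hg (by rw [← h]; rfl)
    have hgz'' : g ≠ inv z := fun h => hg (by rw [h]; rfl)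
    have ha := h1 hgz
    have ha' := h2 hgz'
    rw [tau_el z s g hg, ← ha, ← ha']
    have ht : trav z s a g a' = 0 := by
      unfold trav
      rw [if_neg]
      rintro (⟨h, -⟩ | ⟨h, -⟩)
      · exact hgz h
      · exact hgz'' h
    rw [ht]
    have : cc z s a * ((cc z s a)⁻¹ * el g * cc z s a') * (cc z s a')⁻¹ = el g := by group
    rw [this]
    simpa using norm_el_le g

theorem main (z : Lt n) (s : Lt n → Bool) (a : Bool) (L : List (Lt n)) (b : Bool) (k : ℕ)
    (h : SW z s a L b k) :
    (cc z s a * tau z s (mk L) * (cc z s b)⁻¹).norm + k ≤ L.length := by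
  induction h with
  | nil a =>
    have : (mk [] : FG n) = 1 := rfl
    rw [this]
    simp
  | cons g L a a' b k h1 h2 h3 ih =>
    have e : cc z s a * tau z s (mk (g :: L)) * (cc z s b)⁻¹ =
        (cc z s a * tau z s (el g) * (cc z s a')⁻¹) *
          (cc z s a' * tau z s (mk L) * (cc z s b)⁻¹) := by
      rw [mk_cons, _root_.map_mul]; group
    rw [e]
    have h4 := FreeGroup.norm_mul_le (cc z s a * tau z s (el g) * (cc z s a')⁻¹)
      (cc z s a' * tau z s (mk L) * (cc z s b)⁻¹)
    have h5 := step z s a g a' h1 h2
    simp only [List.length_cons]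
    omega

end SplitMod

theorem splitShort : SplitShortStatement := fun _ z s =>
  ⟨SplitMod.tau z s, SplitMod.cc z s, SplitMod.small_tau z s, SplitMod.norm_cc_le z s,
    SplitMod.main z s⟩

end Pool.Agent.Helper35_WH
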